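import Mathlib

/-!
# Kernel-checkable coset enumeration certificates

A coset table is kept in a binary tree (`Tr`) of blocks of natural numbers.  The functions ending in `K` are
written in continuation passing style with explicit recursors, so that the kernel evaluates them fast and keeps
the table in normal form.  `check_sound` (in `Sound.lean`) is the soundness theorem: for every action of the
letters in which the relators act trivially and the letters of the list `subs` fix the base point, the letter `5`
fixes the base point too.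
-/

namespace TCW

/-- binary tree of blocks; a block holds a checksum of 64 bits and 1024 entries of 20 bits -/
inductive Tr : Type
  | leaf (b : ℕ) : Tr
  | node (l r : Tr) : Tr

/-- state: failure, or a table together with the number of cosets used so far -/
inductive St : Type
  | bad : St
  | ok (t : Tr) (n : ℕ) : St

/-- list of relators, each with its length minus one and with its square as a list -/
inductive Rl : Type
  | nil : Rl
  | cons (m : ℕ) (L : List ℕ) (tl : Rl) : Rl

/-- the block with number `q` -/
noncomputable def getB (t : Tr) : ℕ → ℕ :=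
  Tr.rec (motive := fun _ => ℕ → ℕ)
    (fun b q => Nat.rec (motive := fun _ => ℕ) b (fun _ _ => nat_lit 0) q)
    (fun _ _ gl gr q => Nat.rec (motive := fun _ => ℕ) (gl (Nat.div q (nat_lit 2)))
        (fun _ _ => gr (Nat.div q (nat_lit 2))) (Nat.mod q (nat_lit 2))) t

/-- table look-up -/
noncomputable def get (t : Tr) (k : ℕ) : ℕ :=
  Nat.land (Nat.shiftRight (getB t (Nat.div k (nat_lit 1024)))
    (Nat.add (Nat.mul (nat_lit 20) (Nat.mod k (nat_lit 1024))) (nat_lit 64))) (nat_lit 1048575)

/-- update of block `q` at bit position `s` -/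
noncomputable def setB (t : Tr) : ℕ → ℕ → ℕ → (Tr → St) → St :=
  Tr.rec (motive := fun _ => ℕ → ℕ → ℕ → (Tr → St) → St)
    (fun b q s v c => Nat.rec (motive := fun _ => St)
      (Nat.rec (motive := fun _ => St) St.bad (fun x _ =>
        Nat.rec (motive := fun _ => St) St.bad (fun b' _ => c (Tr.leaf b'))
          (Nat.add (Nat.add (Nat.shiftLeft (Nat.shiftRight x (nat_lit 64)) (nat_lit 64))
            (Nat.mod x (nat_lit 18446744073709551557))) (nat_lit 1)))
        (Nat.add (Nat.sub (Nat.add b (Nat.shiftLeft v s))
          (Nat.shiftLeft (Nat.land (Nat.shiftRight b s) (nat_lit 1048575)) s)) (nat_lit 1)))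
      (fun _ _ => St.bad) q)
    (fun l r sl sr q s v c => Nat.rec (motive := fun _ => St)
        (sl (Nat.div q (nat_lit 2)) s v (fun l' => c (Tr.node l' r)))
        (fun _ _ => sr (Nat.div q (nat_lit 2)) s v (fun r' => c (Tr.node l r')))
        (Nat.mod q (nat_lit 2))) t

/-- table update -/
noncomputable def setK (t : Tr) (k v : ℕ) (c : Tr → St) : St :=
  setB t (Nat.div k (nat_lit 1024))
    (Nat.add (Nat.mul (nat_lit 20) (Nat.mod k (nat_lit 1024))) (nat_lit 64)) v c

/-- the complete tree of depth `d` with all entries zero -/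
noncomputable def fullK (d : ℕ) : (Tr → St) → St :=
  Nat.rec (motive := fun _ => (Tr → St) → St) (fun c => c (Tr.leaf (nat_lit 0)))
    (fun _ ih c => ih (fun t => c (Tr.node t t))) d

/-- inverse letter -/
noncomputable def iv (a : ℕ) : ℕ :=
  Nat.rec (motive := fun _ => ℕ) (nat_lit 1)
    (fun a' _ => Nat.rec (motive := fun _ => ℕ) (nat_lit 0) (fun _ _ => a) a') a

/-- walk `m` letters of the list from the coset `i` -/
noncomputable def walkK (t : Tr) (m : ℕ) : List ℕ → ℕ → (ℕ → List ℕ → St) → St :=
  Nat.rec (motive := fun _ => List ℕ → ℕ → (ℕ → List ℕ → St) → St) (fun L i c => c i L)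
    (fun _ ih L i c => List.rec (motive := fun _ => St) St.bad
      (fun a L' _ => Nat.rec (motive := fun _ => St) St.bad (fun j _ => ih L' j c)
        (get t (Nat.add (Nat.mul (nat_lit 32) i) a))) L) m

/-- follow the identity edges from `i` -/
noncomputable def repK (t : Tr) (m : ℕ) : ℕ → (ℕ → St) → St :=
  Nat.rec (motive := fun _ => ℕ → (ℕ → St) → St) (fun _ _ => St.bad)
    (fun _ ih i c => Nat.rec (motive := fun _ => St) (c i) (fun j _ => ih j c)
      (get t (Nat.add (Nat.mul (nat_lit 32) i) (nat_lit 31)))) m

/-- set the edge `(e, a) → s` (`fl = 0`), the reverse edge (`fl = 2`) or both (`fl = 1`) -/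
noncomputable def edgeK (fl : ℕ) (t : Tr) (e a s : ℕ) (c : Tr → St) : St :=
  Nat.rec (motive := fun _ => St)
    (setK t (Nat.add (Nat.mul (nat_lit 32) e) a) (Nat.add s (nat_lit 1)) c)
    (fun fl' _ => Nat.rec (motive := fun _ => St)
      (setK t (Nat.add (Nat.mul (nat_lit 32) e) a) (Nat.add s (nat_lit 1)) (fun t1 =>
        setK t1 (Nat.add (Nat.mul (nat_lit 32) s) (iv a)) (Nat.add e (nat_lit 1)) c))
      (fun _ _ => setK t (Nat.add (Nat.mul (nat_lit 32) s) (iv a)) (Nat.add e (nat_lit 1)) c) fl') fl

/-- record the identification of `p` and `q` -/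
noncomputable def uniK (t : Tr) (p q : ℕ) (c : Tr → St) : St :=
  Nat.rec (motive := fun _ => St)
    (setK t (Nat.add (Nat.mul (nat_lit 32) p) (nat_lit 31)) (Nat.add q (nat_lit 1)) c)
    (fun _ _ => setK t (Nat.add (Nat.mul (nat_lit 32) q) (nat_lit 31)) (Nat.add p (nat_lit 1)) c)
    (Nat.sub q p)

/-- drop `k` letters -/
noncomputable def dropK (k : ℕ) : List ℕ → List ℕ :=
  Nat.rec (motive := fun _ => List ℕ → List ℕ) (fun L => L)
    (fun _ ih L => List.rec (motive := fun _ => List ℕ) [] (fun _ L' _ => ih L') L) k

/-- find relator number `r` -/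
noncomputable def relK (R : Rl) : ℕ → (ℕ → List ℕ → St) → St :=
  Rl.rec (motive := fun _ => ℕ → (ℕ → List ℕ → St) → St) (fun _ _ => St.bad)
    (fun m L _ ih r c => Nat.rec (motive := fun _ => St) (c m L) (fun r' _ => ih r' c) r) R

/-- define a new coset: `q = 32 i + a` -/
noncomputable def stepDef (fl q : ℕ) (t : Tr) (n : ℕ) : St :=
  Nat.rec (motive := fun _ => St) St.bad (fun i _ =>
    Nat.rec (motive := fun _ => St) St.bad (fun _ _ =>
      Nat.rec (motive := fun _ => St) St.bad (fun _ _ =>
        edgeK fl t i (Nat.mod q (nat_lit 32)) n (fun t2 =>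
          Nat.rec (motive := fun _ => St) St.bad (fun n' _ => St.ok t2 n') (Nat.add n (nat_lit 2))))
        (Nat.sub (nat_lit 1048570) n))
      (Nat.sub n i))
    (Nat.add (Nat.div q (nat_lit 32)) (nat_lit 1))

/-- scan giving a coincidence: `p = 262144 s + 64 r + k` -/
noncomputable def stepCoin (R : Rl) (p : ℕ) (t : Tr) (n : ℕ) : St :=
  Nat.rec (motive := fun _ => St) St.bad (fun s _ =>
    Nat.rec (motive := fun _ => St) St.bad (fun _ _ =>
      relK R (Nat.mod (Nat.div p (nat_lit 64)) (nat_lit 4096)) (fun m L =>
        walkK t (Nat.add m (nat_lit 1)) (dropK (Nat.mod p (nat_lit 64)) L) s (fun e _ =>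
          uniK t e s (fun t1 => St.ok t1 n))))
      (Nat.sub n s))
    (Nat.add (Nat.div p (nat_lit 262144)) (nat_lit 1))

/-- scan giving a new edge: `p = 262144 s + 64 r + k` -/
noncomputable def stepDed (fl : ℕ) (R : Rl) (p : ℕ) (t : Tr) (n : ℕ) : St :=
  Nat.rec (motive := fun _ => St) St.bad (fun s _ =>
    Nat.rec (motive := fun _ => St) St.bad (fun _ _ =>
      relK R (Nat.mod (Nat.div p (nat_lit 64)) (nat_lit 4096)) (fun m L =>
        walkK t m (dropK (Nat.mod p (nat_lit 64)) L) s (fun e L' =>
          List.rec (motive := fun _ => St) St.bad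
            (fun a _ _ => edgeK fl t e a s (fun t1 => St.ok t1 n)) L')))
      (Nat.sub n s))
    (Nat.add (Nat.div p (nat_lit 262144)) (nat_lit 1))

/-- transport of an edge of a dead coset `g` to the representatives: `q = 32 g + a`; the continuation gets
the representatives `mu` of `g` and `nu` of the end point, and the letter -/
noncomputable def tranK (q : ℕ) (t : Tr) (c : ℕ → ℕ → ℕ → St) : St :=
  Nat.rec (motive := fun _ => St) St.bad (fun g _ =>
    Nat.rec (motive := fun _ => St) St.bad (fun a _ =>
      Nat.rec (motive := fun _ => St) St.bad (fun d _ =>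
        repK t (nat_lit 64) g (fun mu => repK t (nat_lit 64) d (fun nu => c mu nu a)))
        (get t q))
      (Nat.add (Nat.mod q (nat_lit 32)) (nat_lit 1)))
    (Nat.add (Nat.div q (nat_lit 32)) (nat_lit 1))

/-- move an edge -/
noncomputable def stepMove (fl q : ℕ) (t : Tr) (n : ℕ) : St :=
  tranK q t (fun mu nu a => edgeK fl t mu a nu (fun t1 => St.ok t1 n))

/-- coincidence from `T(mu, a)` -/
noncomputable def stepMco (q : ℕ) (t : Tr) (n : ℕ) : St :=
  tranK q t (fun mu nu a => Nat.rec (motive := fun _ => St) St.bad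
    (fun e _ => repK t (nat_lit 64) e (fun e' => uniK t e' nu (fun t1 => St.ok t1 n)))
    (get t (Nat.add (Nat.mul (nat_lit 32) mu) a)))

/-- coincidence from `T(nu, a⁻¹)` -/
noncomputable def stepMco2 (q : ℕ) (t : Tr) (n : ℕ) : St :=
  tranK q t (fun mu nu a => Nat.rec (motive := fun _ => St) St.bad
    (fun e _ => repK t (nat_lit 64) e (fun e' => uniK t e' mu (fun t1 => St.ok t1 n)))
    (get t (Nat.add (Nat.mul (nat_lit 32) nu) (iv a))))

/-- one step -/
noncomputable def step (R : Rl) (code : ℕ) (t : Tr) (n : ℕ) : St :=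
  Nat.rec (motive := fun _ => St) St.bad (fun p _ =>
    Nat.rec (motive := fun _ => St) (stepDef (Nat.mod (Nat.mod code (nat_lit 32)) (nat_lit 3)) p t n)
      (fun k1 _ => Nat.rec (motive := fun _ => St)
        (stepDed (Nat.mod (Nat.mod code (nat_lit 32)) (nat_lit 3)) R p t n)
        (fun k2 _ => Nat.rec (motive := fun _ => St)
          (stepMove (Nat.mod (Nat.mod code (nat_lit 32)) (nat_lit 3)) p t n)
          (fun k3 _ => Nat.rec (motive := fun _ => St) (stepCoin R p t n)
            (fun k4 _ => Nat.rec (motive := fun _ => St) (stepMco p t n)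
              (fun _ _ => stepMco2 p t n) k4) k3) k2) k1)
      (Nat.div (Nat.mod code (nat_lit 32)) (nat_lit 3)))
    (Nat.add (Nat.div code (nat_lit 32)) (nat_lit 1))

/-- the steps of one chunk, in base `2 ^ 44` -/
noncomputable def leafK (R : Rl) (f : ℕ) : ℕ → Tr → ℕ → St :=
  Nat.rec (motive := fun _ => ℕ → Tr → ℕ → St) (fun _ t n => St.ok t n)
    (fun _ ih c t n => Nat.rec (motive := fun _ => St) (St.ok t n)
      (fun c' _ => St.rec (motive := fun _ => St) St.bad
        (fun t1 n1 => ih (Nat.div c' (nat_lit 17592186044416)) t1 n1)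
        (step R (Nat.mod c' (nat_lit 17592186044416)) t n)) c) f

/-- a list of chunks -/
noncomputable def listK (R : Rl) (l : List ℕ) : Tr → ℕ → St :=
  List.rec (motive := fun _ => Tr → ℕ → St) (fun t n => St.ok t n)
    (fun c _ ih t n => St.rec (motive := fun _ => St) St.bad (fun t1 n1 => ih t1 n1)
      (leafK R (nat_lit 64) c t n)) l

/-- a list of lists of chunks -/
noncomputable def progK (R : Rl) (l : List (List ℕ)) : Tr → ℕ → St :=
  List.rec (motive := fun _ => Tr → ℕ → St) (fun t n => St.ok t n)
    (fun c _ ih t n => St.rec (motive := fun _ => St) St.bad (fun t1 n1 => ih t1 n1)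
      (listK R c t n)) l

/-- the word with code `c` (with fuel `f`) -/
def wd : ℕ → ℕ → List ℕ
  | 0, _ => []
  | _ + 1, 0 => []
  | f + 1, c + 1 => (c % 32) :: wd f (c / 32)

/-- the word with code `c`, for the kernel -/
noncomputable def wdK (f : ℕ) : ℕ → (List ℕ → St) → St :=
  Nat.rec (motive := fun _ => ℕ → (List ℕ → St) → St) (fun _ c => c [])
    (fun _ ih code c => Nat.rec (motive := fun _ => St) (c [])
      (fun c' _ => Nat.rec (motive := fun _ => St) St.bad
        (fun a _ => ih (Nat.div c' (nat_lit 32)) (fun L => c (a :: L)))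
        (Nat.add (Nat.mod c' (nat_lit 32)) (nat_lit 1))) code) f

/-- append -/
noncomputable def appK (u : List ℕ) : List ℕ → (List ℕ → St) → St :=
  List.rec (motive := fun _ => List ℕ → (List ℕ → St) → St) (fun L c => c L)
    (fun a _ ih L c => ih L (fun L' => c (a :: L'))) u

/-- power of a word -/
def powL : ℕ → List ℕ → List ℕ
  | 0, _ => []
  | m + 1, u => u ++ powL m u

/-- power of a word, for the kernel -/
noncomputable def powK (u : List ℕ) (m : ℕ) : (List ℕ → St) → St :=
  Nat.rec (motive := fun _ => (List ℕ → St) → St) (fun c => c [])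
    (fun _ ih c => ih (fun L => appK u L c)) m

/-- length, for the kernel -/
noncomputable def lenN (L : List ℕ) : ℕ :=
  List.rec (motive := fun _ => ℕ) (nat_lit 0) (fun _ _ ih => Nat.add ih (nat_lit 1)) L

/-- expand the list of relators -/
noncomputable def relsK (l : List (ℕ × ℕ)) : (Rl → St) → St :=
  List.rec (motive := fun _ => (Rl → St) → St) (fun c => c Rl.nil)
    (fun p _ ih c => Prod.rec (motive := fun _ => St) (fun code m =>
      wdK (nat_lit 64) code (fun u => powK u m (fun w => appK w w (fun L =>
        Nat.rec (motive := fun _ => St) St.bad (fun m' _ => ih (fun R => c (Rl.cons m' L R))) (lenN w))))) p) l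

/-- the edges `(0, a) → 0` for the letters of the list -/
noncomputable def subsK (l : List ℕ) : Tr → (Tr → St) → St :=
  List.rec (motive := fun _ => Tr → (Tr → St) → St) (fun t c => c t)
    (fun a _ ih t c => setK t a (nat_lit 1) (fun t1 => ih t1 c)) l

/-- final test: the letter `5` fixes coset `0` -/
noncomputable def finK (s : St) : St :=
  St.rec (motive := fun _ => St) St.bad (fun t n =>
    Nat.rec (motive := fun _ => St) St.bad (fun j _ =>
      repK t (nat_lit 64) j (fun e => Nat.rec (motive := fun _ => St) (St.ok t n) (fun _ _ => St.bad) e))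
      (get t (nat_lit 5))) s

/-- success -/
noncomputable def isOk (s : St) : Bool := St.rec (motive := fun _ => Bool) false (fun _ _ => true) s

/-- the check -/
noncomputable def check (d : ℕ) (subs : List ℕ) (specs : List (ℕ × ℕ)) (prog : List (List ℕ)) : Bool :=
  isOk (finK (fullK d (fun t0 => subsK subs t0 (fun t1 =>
    relsK specs (fun R => progK R prog t1 (nat_lit 1))))))

end TCW
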