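import Pool.Agent.TCW.Core

/-!
# Soundness of the coset enumeration checker
-/

namespace TCW

/-! ## Blocks -/

/-- the entry at position `p` of a block -/
def ent (b p : ℕ) : ℕ := b / 2 ^ (20 * p + 64) % 2 ^ 20

lemma land_mask (x : ℕ) : Nat.land x 1048575 = x % 2 ^ 20 := by
  have h := Nat.and_two_pow_sub_one_eq_mod x 20
  have h2 : (2 ^ 20 - 1 : ℕ) = 1048575 := by norm_num
  rw [h2] at h
  exact h

lemma shr (x s : ℕ) : Nat.shiftRight x s = x / 2 ^ s := Nat.shiftRight_eq_div_pow x s

lemma shl (x s : ℕ) : Nat.shiftLeft x s = x * 2 ^ s := Nat.shiftLeft_eq x s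

/-- the new block before the checksum -/
def wr (b s v : ℕ) : ℕ := b + v * 2 ^ s - (b / 2 ^ s % 2 ^ 20) * 2 ^ s

lemma wr_eq (b s v : ℕ) : ∃ lo hi o : ℕ, lo < 2 ^ s ∧ o < 2 ^ 20 ∧ b = lo + 2 ^ s * (o + 2 ^ 20 * hi) ∧
    wr b s v = lo + 2 ^ s * (v + 2 ^ 20 * hi) := by
  have h1 := Nat.mod_add_div b (2 ^ s)
  have h2 := Nat.mod_add_div (b / 2 ^ s) (2 ^ 20)
  have h3 : b % 2 ^ s < 2 ^ s := Nat.mod_lt _ (by positivity)
  have h4 : b / 2 ^ s % 2 ^ 20 < 2 ^ 20 := Nat.mod_lt _ (by positivity)
  refine ⟨b % 2 ^ s, b / 2 ^ s / 2 ^ 20, b / 2 ^ s % 2 ^ 20, h3, h4, ?_, ?_⟩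
  · rw [h2, h1]
  · unfold wr
    generalize 2 ^ 20 = M at *
    generalize b % 2 ^ s = lo at *
    generalize b / 2 ^ s = qq at *
    generalize 2 ^ s = S at *
    generalize qq % M = o at *
    generalize qq / M = hi at *
    subst h2
    subst h1
    have h5 : lo + S * (o + M * hi) + v * S = (lo + S * (v + M * hi)) + o * S := by ring
    rw [h5, Nat.add_sub_cancel]

lemma low_part (lo P M D w : ℕ) (hP : 0 < P) : (lo + P * (M * D) * w) / P % M = lo / P % M := by
  rw [mul_assoc, Nat.add_mul_div_left _ _ hP, mul_assoc, Nat.add_mul_mod_self_left]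

lemma high_part (lo P M D w hi : ℕ) (hP : 0 < P) (hM : 0 < M) (hlo : lo < P) (hw : w < M) :
    (lo + P * (w + M * hi)) / (P * (M * D)) = hi / D := by
  rw [← Nat.div_div_eq_div_mul, Nat.add_mul_div_left _ _ hP, Nat.div_eq_of_lt hlo, Nat.zero_add,
    ← Nat.div_div_eq_div_mul, Nat.add_mul_div_left _ _ hM, Nat.div_eq_of_lt hw, Nat.zero_add]

lemma mid_part (lo P M w hi : ℕ) (hP : 0 < P) (hlo : lo < P) (hw : w < M) :
    (lo + P * (w + M * hi)) / P % M = w := by
  rw [Nat.add_mul_div_left _ _ hP, Nat.div_eq_of_lt hlo, Nat.zero_add, Nat.add_mul_mod_self_left,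
    Nat.mod_eq_of_lt hw]

lemma ent_wr (b p v p' : ℕ) (hv : v < 2 ^ 20) :
    ent (wr b (20 * p + 64) v) p' = if p' = p then v else ent b p' := by
  obtain ⟨lo, hi, o, hlo, ho, hb, hw⟩ := wr_eq b (20 * p + 64) v
  unfold ent
  rw [hw]
  have hpos : 0 < 2 ^ (20 * p + 64) := by positivity
  split_ifs with h
  · subst h
    exact mid_part lo (2 ^ (20 * p' + 64)) (2 ^ 20) v hi hpos hlo hv
  · rw [hb]
    rcases lt_or_gt_of_ne h with h | h
    · -- p' < p
      obtain ⟨d, hd⟩ : ∃ d, p = p' + 1 + d := ⟨p - (p' + 1), by omega⟩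
      have e0 : 20 * p + 64 = (20 * p' + 64) + (20 + 20 * d) := by omega
      have e : 2 ^ (20 * p + 64) = 2 ^ (20 * p' + 64) * (2 ^ 20 * 2 ^ (20 * d)) := by
        rw [e0, pow_add, pow_add 2 20 (20 * d)]
      rw [e, low_part lo (2 ^ (20 * p' + 64)) (2 ^ 20) (2 ^ (20 * d)) _ (Nat.two_pow_pos _),
        low_part lo (2 ^ (20 * p' + 64)) (2 ^ 20) (2 ^ (20 * d)) _ (Nat.two_pow_pos _)]
    · obtain ⟨d, hd⟩ : ∃ d, p' = p + 1 + d := ⟨p' - (p + 1), by omega⟩
      have e0 : 20 * p' + 64 = (20 * p + 64) + (20 + 20 * d) := by omega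
      have e : 2 ^ (20 * p' + 64) = 2 ^ (20 * p + 64) * (2 ^ 20 * 2 ^ (20 * d)) := by
        rw [e0, pow_add, pow_add 2 20 (20 * d)]
      rw [e, high_part lo (2 ^ (20 * p + 64)) (2 ^ 20) (2 ^ (20 * d)) v hi hpos (Nat.two_pow_pos _) hlo hv,
        high_part lo (2 ^ (20 * p + 64)) (2 ^ 20) (2 ^ (20 * d)) o hi hpos (Nat.two_pow_pos _) hlo ho]

/-- the checksum does not change the entries -/
lemma ent_fix (x p : ℕ) : ent (x / 2 ^ 64 * 2 ^ 64 + x % 18446744073709551557) p = ent x p := by
  unfold ent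
  have hj : x % 18446744073709551557 < 2 ^ 64 :=
    lt_of_lt_of_le (Nat.mod_lt _ (by norm_num)) (by norm_num)
  have e : 2 ^ (20 * p + 64) = 2 ^ 64 * 2 ^ (20 * p) := by rw [Nat.add_comm, pow_add]
  rw [e, ← Nat.div_div_eq_div_mul, ← Nat.div_div_eq_div_mul, Nat.add_comm, Nat.add_mul_div_right _ _ (by norm_num),
    Nat.div_eq_of_lt hj, Nat.zero_add]

/-! ## The tree -/

lemma getB_leaf_zero (b : ℕ) : getB (Tr.leaf b) 0 = b := rfl
lemma getB_leaf_succ (b q : ℕ) : getB (Tr.leaf b) (q + 1) = 0 := rfl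

lemma getB_node (l r : Tr) (q : ℕ) :
    getB (Tr.node l r) q = if q % 2 = 0 then getB l (q / 2) else getB r (q / 2) := by
  have h : getB (Tr.node l r) q = Nat.rec (motive := fun _ => ℕ) (getB l (Nat.div q 2))
      (fun _ _ => getB r (Nat.div q 2)) (Nat.mod q 2) := rfl
  rw [h]
  change Nat.rec (motive := fun _ => ℕ) (getB l (q / 2)) (fun _ _ => getB r (q / 2)) (q % 2) = _
  rcases Nat.mod_two_eq_zero_or_one q with h | h
  · rw [h]; simp
  · rw [h]; simp

lemma setB_node (l r : Tr) (q s v : ℕ) (c : Tr → St) :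
    setB (Tr.node l r) q s v c = if q % 2 = 0 then setB l (q / 2) s v (fun l' => c (Tr.node l' r))
      else setB r (q / 2) s v (fun r' => c (Tr.node l r')) := by
  change Nat.rec (motive := fun _ => St) (setB l (q / 2) s v (fun l' => c (Tr.node l' r)))
    (fun _ _ => setB r (q / 2) s v (fun r' => c (Tr.node l r'))) (q % 2) = _
  rcases Nat.mod_two_eq_zero_or_one q with h | h
  · rw [h]; simp
  · rw [h]; simp

lemma setB_leaf_zero (b s v : ℕ) (c : Tr → St) :
    setB (Tr.leaf b) 0 s v c =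
      c (Tr.leaf (wr b s v / 2 ^ 64 * 2 ^ 64 + wr b s v % 18446744073709551557)) := by
  have h : setB (Tr.leaf b) 0 s v c =
      Nat.rec (motive := fun _ => St) St.bad (fun x _ =>
        Nat.rec (motive := fun _ => St) St.bad (fun b' _ => c (Tr.leaf b'))
          ((Nat.shiftLeft (Nat.shiftRight x 64) 64 + x % 18446744073709551557) + 1))
        ((b + Nat.shiftLeft v s - Nat.shiftLeft (Nat.land (Nat.shiftRight b s) 1048575) s) + 1) := rfl
  rw [h]
  have h2 : b + Nat.shiftLeft v s - Nat.shiftLeft (Nat.land (Nat.shiftRight b s) 1048575) s = wr b s v := by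
    rw [land_mask, shr, shl, shl]; rfl
  rw [h2]
  change c (Tr.leaf (Nat.shiftLeft (Nat.shiftRight (wr b s v) 64) 64 + wr b s v % 18446744073709551557)) = _
  rw [shr, shl]

lemma setB_leaf_succ (b q s v : ℕ) (c : Tr → St) : setB (Tr.leaf b) (q + 1) s v c = St.bad := rfl

lemma setB_spec (t : Tr) : ∀ (q p v : ℕ) (c : Tr → St), v < 2 ^ 20 →
    setB t q (20 * p + 64) v c = St.bad ∨ ∃ t', setB t q (20 * p + 64) v c = c t' ∧
      ∀ q' p', ent (getB t' q') p' = if q' = q ∧ p' = p then v else ent (getB t q') p' := by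
  induction t with
  | leaf b =>
    intro q p v c hv
    rcases q with _ | q
    · right
      refine ⟨_, setB_leaf_zero b _ v c, ?_⟩
      intro q' p'
      rcases q' with _ | q'
      · rw [getB_leaf_zero, getB_leaf_zero, ent_fix, ent_wr _ _ _ _ hv]
        simp
      · rw [getB_leaf_succ, getB_leaf_succ]
        simp
    · left; rfl
  | node l r ihl ihr =>
    intro q p v c hv
    rw [setB_node]
    split_ifs with h
    · rcases ihl (q / 2) p v (fun l' => c (Tr.node l' r)) hv with h1 | ⟨t', h1, h2⟩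
      · left; exact h1
      · right
        refine ⟨_, h1, ?_⟩
        intro q' p'
        rw [getB_node, getB_node]
        split_ifs with h3 h4 h4
        · rw [h2, if_pos ⟨by omega, h4.2⟩]
        · rw [h2, if_neg]
          rintro ⟨h5, h6⟩
          exact h4 ⟨by omega, h6⟩
        · exact absurd h4.1 (by intro h5; subst h5; exact h3 h)
        · rfl
    · rcases ihr (q / 2) p v (fun r' => c (Tr.node l r')) hv with h1 | ⟨t', h1, h2⟩
      · left; exact h1
      · right
        refine ⟨_, h1, ?_⟩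
        intro q' p'
        rw [getB_node, getB_node]
        split_ifs with h3 h4 h4
        · exact absurd h4.1 (by intro h5; subst h5; exact h h3)
        · rfl
        · rw [h2, if_pos ⟨by omega, h4.2⟩]
        · rw [h2, if_neg]
          rintro ⟨h5, h6⟩
          exact h4 ⟨by omega, h6⟩

lemma get_eq (t : Tr) (k : ℕ) : get t k = ent (getB t (k / 1024)) (k % 1024) := by
  change Nat.land (Nat.shiftRight (getB t (k / 1024)) (20 * (k % 1024) + 64)) 1048575 = _
  rw [land_mask, shr]; rfl

lemma setK_spec (t : Tr) (k v : ℕ) (c : Tr → St) (hv : v < 2 ^ 20) :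
    setK t k v c = St.bad ∨ ∃ t', setK t k v c = c t' ∧
      ∀ m, get t' m = if m = k then v else get t m := by
  rcases setB_spec t (k / 1024) (k % 1024) v c hv with h | ⟨t', h1, h2⟩
  · left; exact h
  · right
    refine ⟨t', h1, ?_⟩
    intro m
    rw [get_eq, h2, get_eq]
    by_cases h3 : m = k
    · subst h3; simp
    · rw [if_neg h3, if_neg]
      rintro ⟨h4, h5⟩
      apply h3
      have := Nat.div_add_mod m 1024
      have := Nat.div_add_mod k 1024
      omega

lemma fullK_spec (d : ℕ) : ∀ c : Tr → St, ∃ t, fullK d c = c t ∧ ∀ k, get t k = 0 := by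
  have h : ∀ c : Tr → St, ∃ t, fullK d c = c t ∧ ∀ q p, ent (getB t q) p = 0 := by
    induction d with
    | zero =>
      intro c
      refine ⟨Tr.leaf 0, rfl, ?_⟩
      intro q p
      rcases q with _ | q
      · rw [getB_leaf_zero]; simp [ent]
      · rw [getB_leaf_succ]; simp [ent]
    | succ d ih =>
      intro c
      obtain ⟨t, h1, h2⟩ := ih (fun t => c (Tr.node t t))
      refine ⟨Tr.node t t, h1, ?_⟩
      intro q p
      rw [getB_node]
      split_ifs <;> exact h2 _ _
  intro c
  obtain ⟨t, h1, h2⟩ := h c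
  exact ⟨t, h1, fun k => by rw [get_eq]; exact h2 _ _⟩

/-! ## Good tables -/

section Sound

variable {Ω : Type*} (act : ℕ → Ω → Ω) (ω₀ : Ω)

/-- the table is correct for the assignment `f` of points to cosets -/
def Good (f : ℕ → Ω) (t : Tr) (n : ℕ) : Prop :=
  n < 2 ^ 20 - 1 ∧ ∀ k j, get t k = j + 1 → k / 32 < n ∧ j < n ∧ act (k % 32) (f (k / 32)) = f j

/-- a state is good -/
def GoodSt : St → Prop
  | St.bad => True
  | St.ok t n => ∃ f : ℕ → Ω, f 0 = ω₀ ∧ Good act f t n

variable {act ω₀}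

lemma Good.get {f : ℕ → Ω} {t : Tr} {n : ℕ} (h : Good act f t n) {i a j : ℕ} (ha : a < 32)
    (hj : get t (32 * i + a) = j + 1) : i < n ∧ j < n ∧ act a (f i) = f j := by
  have h1 := h.2 _ _ hj
  have e1 : (32 * i + a) / 32 = i := by omega
  have e2 : (32 * i + a) % 32 = a := by omega
  rw [e1, e2] at h1
  exact h1

lemma Good.set {f : ℕ → Ω} {t t' : Tr} {n : ℕ} (h : Good act f t n) {i a j : ℕ} (ha : a < 32)
    (hi : i < n) (hj : j < n) (he : act a (f i) = f j)
    (ht : ∀ m, TCW.get t' m = if m = 32 * i + a then j + 1 else TCW.get t m) : Good act f t' n := by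
  refine ⟨h.1, ?_⟩
  intro k j' hk
  rw [ht] at hk
  split_ifs at hk with h1
  · subst h1
    have e1 : (32 * i + a) / 32 = i := by omega
    have e2 : (32 * i + a) % 32 = a := by omega
    rw [e1, e2]
    have : j' = j := by omega
    subst this
    exact ⟨hi, hj, he⟩
  · exact h.2 _ _ hk

/-- generic principle for `setK` -/
lemma goodSt_setK {t : Tr} {k v : ℕ} {c : Tr → St} (hv : v < 2 ^ 20)
    (h : ∀ t', (∀ m, get t' m = if m = k then v else get t m) → GoodSt act ω₀ (c t')) :
    GoodSt act ω₀ (setK t k v c) := by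
  rcases setK_spec t k v c hv with h1 | ⟨t', h1, h2⟩
  · rw [h1]; trivial
  · rw [h1]; exact h t' h2

lemma iv_lt {a : ℕ} (ha : a < 32) : iv a < 32 := by
  rcases a with _ | _ | a
  · change (1 : ℕ) < 32; norm_num
  · change (0 : ℕ) < 32; norm_num
  · exact ha

/-- case distinction on a natural number -/
lemma goodSt_natRec {x : ℕ} {z : St} {s : ℕ → St → St}
    (hz : x = 0 → GoodSt act ω₀ z) (hs : ∀ y, x = y + 1 →
      GoodSt act ω₀ (s y (Nat.rec (motive := fun _ => St) z s y))) :
    GoodSt act ω₀ (Nat.rec (motive := fun _ => St) z s x) := by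
  rcases x with _ | y
  · exact hz rfl
  · exact hs y rfl

lemma goodSt_edgeK (hiv : ∀ a, a < 32 → ∀ ω, act (iv a) (act a ω) = ω) {f : ℕ → Ω} {fl : ℕ} {t : Tr}
    {n e a s : ℕ} {c : Tr → St} (h : Good act f t n) (ha : a < 32) (he : e < n) (hs : s < n)
    (hes : act a (f e) = f s) (hc : ∀ t', Good act f t' n → GoodSt act ω₀ (c t')) :
    GoodSt act ω₀ (edgeK fl t e a s c) := by
  have hse : act (iv a) (f s) = f e := by rw [← hes]; exact hiv a ha _
  have hn := h.1
  have fwd : ∀ (t : Tr) (c : Tr → St), Good act f t n → (∀ t', Good act f t' n → GoodSt act ω₀ (c t')) →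
      GoodSt act ω₀ (setK t (32 * e + a) (s + 1) c) := by
    intro t c h hc
    exact goodSt_setK (by omega) (fun t' ht' => hc t' (h.set ha he hs hes ht'))
  have bwd : ∀ (t : Tr) (c : Tr → St), Good act f t n → (∀ t', Good act f t' n → GoodSt act ω₀ (c t')) →
      GoodSt act ω₀ (setK t (32 * s + iv a) (e + 1) c) := by
    intro t c h hc
    exact goodSt_setK (by omega) (fun t' ht' => hc t' (h.set (iv_lt ha) hs he hse ht'))
  rcases fl with _ | _ | fl
  · exact fwd t c h hc
  · exact fwd t _ h (fun t' h' => bwd t' c h' hc)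
  · exact bwd t c h hc

lemma goodSt_uniK (h15 : ∀ ω, act 31 ω = ω) {f : ℕ → Ω} {t : Tr}
    {n p q : ℕ} {c : Tr → St} (h : Good act f t n) (hp : p < n) (hq : q < n)
    (hpq : f p = f q) (hc : ∀ t', Good act f t' n → GoodSt act ω₀ (c t')) :
    GoodSt act ω₀ (uniK t p q c) := by
  have hn := h.1
  unfold uniK
  apply goodSt_natRec
  · intro _
    exact goodSt_setK (k := 32 * p + 31) (v := q + 1) (by omega)
      (fun t' ht' => hc t' (h.set (by norm_num) hp hq (by rw [h15]; exact hpq) ht'))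
  · intro y _
    exact goodSt_setK (k := 32 * q + 31) (v := p + 1) (by omega)
      (fun t' ht' => hc t' (h.set (by norm_num) hq hp (by rw [h15]; exact hpq.symm) ht'))

lemma goodSt_repK (h15 : ∀ ω, act 31 ω = ω) {f : ℕ → Ω} {t : Tr} {n : ℕ} (h : Good act f t n) (m : ℕ) :
    ∀ (i : ℕ) (c : ℕ → St), i < n → (∀ e, e < n → f e = f i → GoodSt act ω₀ (c e)) →
    GoodSt act ω₀ (repK t m i c) := by
  induction m with
  | zero => intro i c _ _; trivial
  | succ m ih =>
    intro i c hi hc
    change GoodSt act ω₀ (Nat.rec (motive := fun _ => St) (c i) (fun j _ => repK t m j c)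
      (get t (32 * i + 31)))
    apply goodSt_natRec
    · intro _; exact hc i hi rfl
    · intro j hj
      have h1 := h.get (by norm_num) hj
      rw [h15] at h1
      exact ih j c h1.2.1 (fun e he hfe => hc e he (by rw [hfe, h1.2.2]))

/-- the point reached from `ω` along a word -/
def pth (act : ℕ → Ω → Ω) (L : List ℕ) (ω : Ω) : Ω := L.foldl (fun ω a => act a ω) ω

lemma pth_append (L M : List ℕ) (ω : Ω) : pth act (L ++ M) ω = pth act M (pth act L ω) := by
  simp [pth, List.foldl_append]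

lemma goodSt_walkK {f : ℕ → Ω} {t : Tr} {n : ℕ} (h : Good act f t n) (m : ℕ) :
    ∀ (L : List ℕ) (i : ℕ) (c : ℕ → List ℕ → St), (∀ a ∈ L, a < 32) → i < n →
    (∀ e, e < n → m ≤ L.length → pth act (L.take m) (f i) = f e → GoodSt act ω₀ (c e (L.drop m))) →
    GoodSt act ω₀ (walkK t m L i c) := by
  induction m with
  | zero =>
    intro L i c _ hi hc
    exact hc i hi (Nat.zero_le _) (by simp [pth])
  | succ m ih =>
    intro L i c hL hi hc
    rcases L with _ | ⟨a, L⟩
    · trivial
    · change GoodSt act ω₀ (Nat.rec (motive := fun _ => St) St.bad (fun j _ => walkK t m L j c)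
        (get t (32 * i + a)))
      apply goodSt_natRec
      · intro _; trivial
      · intro j hj
        have h1 := h.get (hL a (by simp)) hj
        refine ih L j c (fun b hb => hL b (by simp [hb])) h1.2.1 ?_
        intro e he hle hp
        refine hc e he (by simp; omega) ?_
        rw [List.take_succ_cons]
        change pth act (List.take m L) (act a (f i)) = f e
        rw [h1.2.2]; exact hp

/-! ## Relators -/

variable (act) in
/-- every window of the right length of the square acts trivially -/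
def GoodRel (m : ℕ) (L : List ℕ) : Prop :=
  (∀ a ∈ L, a < 32) ∧ ∀ k, k + (m + 1) ≤ L.length → ∀ ω, pth act ((L.drop k).take (m + 1)) ω = ω

variable (act) in
/-- all relators are good -/
def GoodRl : Rl → Prop
  | Rl.nil => True
  | Rl.cons m L tl => GoodRel act m L ∧ GoodRl tl

lemma goodSt_relK {R : Rl} (hR : GoodRl act R) : ∀ (r : ℕ) (c : ℕ → List ℕ → St),
    (∀ m L, GoodRel act m L → GoodSt act ω₀ (c m L)) → GoodSt act ω₀ (relK R r c) := by
  induction R with
  | nil => intro r c _; trivial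
  | cons m L tl ih =>
    intro r c hc
    rcases r with _ | r
    · exact hc m L hR.1
    · exact ih hR.2 r c hc

lemma dropK_eq (k : ℕ) : ∀ L : List ℕ, dropK k L = L.drop k := by
  induction k with
  | zero => intro L; rfl
  | succ k ih =>
    intro L
    rcases L with _ | ⟨a, L⟩
    · rfl
    · exact ih L

/-! ## Steps -/

lemma Good.extend {f : ℕ → Ω} {t : Tr} {n : ℕ} (h : Good act f t n) (hn : n + 1 < 2 ^ 20 - 1) (ω : Ω) :
    Good act (Function.update f n ω) t (n + 1) := by
  refine ⟨hn, ?_⟩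
  intro k j hk
  obtain ⟨h1, h2, h3⟩ := h.2 k j hk
  refine ⟨by omega, by omega, ?_⟩
  rw [Function.update_of_ne (by omega), Function.update_of_ne (by omega)]
  exact h3

lemma stepDef_eq (fl q : ℕ) (t : Tr) (n : ℕ) : stepDef fl q t n =
    Nat.rec (motive := fun _ => St) St.bad (fun _ _ => Nat.rec (motive := fun _ => St) St.bad (fun _ _ =>
      edgeK fl t (q / 32) (q % 32) n (fun t2 => St.ok t2 (n + 1))) (1048570 - n)) (n - q / 32) := rfl

lemma stepCoin_eq (R : Rl) (p : ℕ) (t : Tr) (n : ℕ) : stepCoin R p t n =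
    Nat.rec (motive := fun _ => St) St.bad (fun _ _ => relK R (p / 64 % 4096) (fun m L =>
      walkK t (m + 1) (dropK (p % 64) L) (p / 262144) (fun e _ =>
        uniK t e (p / 262144) (fun t1 => St.ok t1 n)))) (n - p / 262144) := rfl

lemma stepDed_eq (fl : ℕ) (R : Rl) (p : ℕ) (t : Tr) (n : ℕ) : stepDed fl R p t n =
    Nat.rec (motive := fun _ => St) St.bad (fun _ _ => relK R (p / 64 % 4096) (fun m L =>
      walkK t m (dropK (p % 64) L) (p / 262144) (fun e L' =>
        List.rec (motive := fun _ => St) St.bad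
          (fun a _ _ => edgeK fl t e a (p / 262144) (fun t1 => St.ok t1 n)) L'))) (n - p / 262144) := rfl

lemma tranK_eq (q : ℕ) (t : Tr) (c : ℕ → ℕ → ℕ → St) : tranK q t c =
    Nat.rec (motive := fun _ => St) St.bad (fun d _ =>
      repK t 64 (q / 32) (fun mu => repK t 64 d (fun nu => c mu nu (q % 32)))) (get t q) := rfl

lemma step_eq (R : Rl) (code : ℕ) (t : Tr) (n : ℕ) : step R code t n =
    Nat.rec (motive := fun _ => St) (stepDef (code % 32 % 3) (code / 32) t n)
      (fun k1 _ => Nat.rec (motive := fun _ => St)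
        (stepDed (code % 32 % 3) R (code / 32) t n)
        (fun k2 _ => Nat.rec (motive := fun _ => St)
          (stepMove (code % 32 % 3) (code / 32) t n)
          (fun k3 _ => Nat.rec (motive := fun _ => St) (stepCoin R (code / 32) t n)
            (fun k4 _ => Nat.rec (motive := fun _ => St) (stepMco (code / 32) t n)
              (fun _ _ => stepMco2 (code / 32) t n) k4) k3) k2) k1)
      (code % 32 / 3) := rfl

lemma goodSt_stepDef (hiv : ∀ a, a < 32 → ∀ ω, act (iv a) (act a ω) = ω) (fl q : ℕ) (t : Tr) (n : ℕ)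
    (h : GoodSt act ω₀ (St.ok t n)) : GoodSt act ω₀ (stepDef fl q t n) := by
  obtain ⟨f, hf0, hg⟩ := h
  rw [stepDef_eq]
  refine goodSt_natRec (x := n - q / 32) (fun _ => trivial) ?_
  intro y hy
  refine goodSt_natRec (x := 1048570 - n) (fun _ => trivial) ?_
  intro y' hy'
  have hext := hg.extend (by norm_num; omega) (act (q % 32) (f (q / 32)))
  refine goodSt_edgeK hiv hext (Nat.mod_lt _ (by norm_num)) (by omega) (Nat.lt_succ_self n) ?_ ?_
  · rw [Function.update_of_ne (by omega), Function.update_self]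
  · intro t' ht'
    refine ⟨_, ?_, ht'⟩
    rw [Function.update_of_ne (by omega)]
    exact hf0

lemma goodSt_stepCoin (h15 : ∀ ω, act 31 ω = ω) {R : Rl} (hR : GoodRl act R) (p : ℕ) (t : Tr) (n : ℕ)
    (h : GoodSt act ω₀ (St.ok t n)) : GoodSt act ω₀ (stepCoin R p t n) := by
  obtain ⟨f, hf0, hg⟩ := h
  rw [stepCoin_eq]
  refine goodSt_natRec (x := n - p / 262144) (fun _ => trivial) ?_
  intro y hy
  generalize p / 262144 = s at *
  have hs' : s < n := by omega
  apply goodSt_relK hR
  intro m L hL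
  apply goodSt_walkK hg (m + 1) _ s
  · intro a ha
    rw [dropK_eq] at ha
    exact hL.1 a (List.mem_of_mem_drop ha)
  · exact hs'
  · intro e he hle hp
    rw [dropK_eq] at hle hp
    rw [List.length_drop] at hle
    rw [hL.2 _ (by omega)] at hp
    exact goodSt_uniK h15 hg he hs' hp.symm (fun t' ht' => ⟨f, hf0, ht'⟩)

lemma goodSt_stepDed (hiv : ∀ a, a < 32 → ∀ ω, act (iv a) (act a ω) = ω) (fl : ℕ)
    {R : Rl} (hR : GoodRl act R) (p : ℕ) (t : Tr) (n : ℕ)
    (h : GoodSt act ω₀ (St.ok t n)) : GoodSt act ω₀ (stepDed fl R p t n) := by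
  obtain ⟨f, hf0, hg⟩ := h
  rw [stepDed_eq]
  refine goodSt_natRec (x := n - p / 262144) (fun _ => trivial) ?_
  intro y hy
  generalize p / 262144 = s at *
  have hs' : s < n := by omega
  apply goodSt_relK hR
  intro m L hL
  apply goodSt_walkK hg m _ s
  · intro a ha
    rw [dropK_eq] at ha
    exact hL.1 a (List.mem_of_mem_drop ha)
  · exact hs'
  · intro e he hle hp
    rw [dropK_eq] at hle hp ⊢
    rw [List.drop_drop] at *
    rcases hM : List.drop ((p % 64) + m) L with _ | ⟨a, M⟩
    · trivial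
    · change GoodSt act ω₀ (edgeK fl t e a s (fun t1 => St.ok t1 n))
      have ha : a ∈ L := by
        have : a ∈ List.drop ((p % 64) + m) L := by rw [hM]; simp
        exact List.mem_of_mem_drop this
      have hlen : (p % 64) + m < L.length := by
        by_contra hcon
        rw [List.drop_eq_nil_of_le (by omega)] at hM
        exact absurd hM (by simp)
      have hw := hL.2 ((p % 64)) (by omega) (f s)
      have htk : List.take (m + 1) (List.drop ((p % 64)) L) =
          List.take m (List.drop ((p % 64)) L) ++ [a] := by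
        rw [List.take_add_one]
        congr 1
        have : (List.drop ((p % 64)) L)[m]? = some a := by
          rw [List.getElem?_drop]
          have h2 : (List.drop ((p % 64) + m) L)[0]? = some a := by rw [hM]; rfl
          rw [List.getElem?_drop] at h2
          simpa using h2
        rw [this]; rfl
      rw [htk, pth_append, hp] at hw
      exact goodSt_edgeK hiv hg (hL.1 a ha) he hs' hw (fun t' ht' => ⟨f, hf0, ht'⟩)

lemma goodSt_tranK (h15 : ∀ ω, act 31 ω = ω) {f : ℕ → Ω} {t : Tr} {n : ℕ} (hg : Good act f t n) (q : ℕ)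
    (c : ℕ → ℕ → ℕ → St)
    (hc : ∀ mu nu a, mu < n → nu < n → a < 32 → act a (f mu) = f nu → GoodSt act ω₀ (c mu nu a)) :
    GoodSt act ω₀ (tranK q t c) := by
  rw [tranK_eq]
  refine goodSt_natRec (x := get t q) (fun _ => trivial) ?_
  intro d hd
  obtain ⟨hgn, hdn, hact⟩ := hg.2 q d hd
  refine goodSt_repK h15 hg _ _ _ hgn ?_
  intro mu hmu hfmu
  refine goodSt_repK h15 hg _ d _ hdn ?_
  intro nu hnu hfnu
  refine hc mu nu _ hmu hnu (Nat.mod_lt _ (by norm_num)) ?_
  rw [hfmu, hfnu]; exact hact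

lemma goodSt_stepMove (h15 : ∀ ω, act 31 ω = ω) (hiv : ∀ a, a < 32 → ∀ ω, act (iv a) (act a ω) = ω)
    (fl q : ℕ) (t : Tr) (n : ℕ)
    (h : GoodSt act ω₀ (St.ok t n)) : GoodSt act ω₀ (stepMove fl q t n) := by
  obtain ⟨f, hf0, hg⟩ := h
  refine goodSt_tranK h15 hg q _ ?_
  intro mu nu a hmu hnu ha he
  exact goodSt_edgeK hiv hg ha hmu hnu he (fun t' ht' => ⟨f, hf0, ht'⟩)

lemma goodSt_stepMco (h15 : ∀ ω, act 31 ω = ω) (q : ℕ) (t : Tr) (n : ℕ)
    (h : GoodSt act ω₀ (St.ok t n)) : GoodSt act ω₀ (stepMco q t n) := by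
  obtain ⟨f, hf0, hg⟩ := h
  refine goodSt_tranK h15 hg q _ ?_
  intro mu nu a hmu hnu ha he
  apply goodSt_natRec
  · intro _; trivial
  intro e hge
  have h1 := hg.get ha hge
  refine goodSt_repK h15 hg _ e _ h1.2.1 ?_
  intro e' he' hfe
  exact goodSt_uniK h15 hg he' hnu (by rw [hfe, ← h1.2.2, he]) (fun t' ht' => ⟨f, hf0, ht'⟩)

lemma goodSt_stepMco2 (h15 : ∀ ω, act 31 ω = ω) (hiv : ∀ a, a < 32 → ∀ ω, act (iv a) (act a ω) = ω)
    (q : ℕ) (t : Tr) (n : ℕ)
    (h : GoodSt act ω₀ (St.ok t n)) : GoodSt act ω₀ (stepMco2 q t n) := by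
  obtain ⟨f, hf0, hg⟩ := h
  refine goodSt_tranK h15 hg q _ ?_
  intro mu nu a hmu hnu ha he
  apply goodSt_natRec
  · intro _; trivial
  intro e hge
  have h1 := hg.get (iv_lt ha) hge
  refine goodSt_repK h15 hg _ e _ h1.2.1 ?_
  intro e' he' hfe
  exact goodSt_uniK h15 hg he' hmu (by rw [hfe, ← h1.2.2, ← he, hiv a ha]) (fun t' ht' => ⟨f, hf0, ht'⟩)

lemma goodSt_step (h15 : ∀ ω, act 31 ω = ω) (hiv : ∀ a, a < 32 → ∀ ω, act (iv a) (act a ω) = ω)
    {R : Rl} (hR : GoodRl act R) (code : ℕ) (t : Tr) (n : ℕ)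
    (h : GoodSt act ω₀ (St.ok t n)) : GoodSt act ω₀ (step R code t n) := by
  rw [step_eq]
  refine goodSt_natRec (x := code % 32 / 3) (fun _ => goodSt_stepDef hiv _ _ _ _ h) ?_
  intro k1 _
  refine goodSt_natRec (x := k1) (fun _ => goodSt_stepDed hiv _ hR _ _ _ h) ?_
  intro k2 _
  refine goodSt_natRec (x := k2) (fun _ => goodSt_stepMove h15 hiv _ _ _ _ h) ?_
  intro k3 _
  refine goodSt_natRec (x := k3) (fun _ => goodSt_stepCoin h15 hR _ _ _ h) ?_
  intro k4 _
  refine goodSt_natRec (x := k4) (fun _ => goodSt_stepMco h15 _ _ _ h) ?_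
  intro _ _
  exact goodSt_stepMco2 h15 hiv _ _ _ h

lemma goodSt_bind {s : St} {g : Tr → ℕ → St} (hs : GoodSt act ω₀ s)
    (hg : ∀ t n, GoodSt act ω₀ (St.ok t n) → GoodSt act ω₀ (g t n)) :
    GoodSt act ω₀ (St.rec (motive := fun _ => St) St.bad (fun t n => g t n) s) := by
  rcases s with _ | ⟨t, n⟩
  · trivial
  · exact hg t n hs

lemma goodSt_leafK (h15 : ∀ ω, act 31 ω = ω) (hiv : ∀ a, a < 32 → ∀ ω, act (iv a) (act a ω) = ω)
    {R : Rl} (hR : GoodRl act R) (f : ℕ) : ∀ (c : ℕ) (t : Tr) (n : ℕ),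
    GoodSt act ω₀ (St.ok t n) → GoodSt act ω₀ (leafK R f c t n) := by
  induction f with
  | zero => intro c t n h; exact h
  | succ f ih =>
    intro c t n h
    rcases c with _ | c
    · exact h
    · exact goodSt_bind (goodSt_step h15 hiv hR _ _ _ h) (fun t n h => ih _ t n h)

lemma goodSt_listK (h15 : ∀ ω, act 31 ω = ω) (hiv : ∀ a, a < 32 → ∀ ω, act (iv a) (act a ω) = ω)
    {R : Rl} (hR : GoodRl act R) (l : List ℕ) : ∀ (t : Tr) (n : ℕ),
    GoodSt act ω₀ (St.ok t n) → GoodSt act ω₀ (listK R l t n) := by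
  induction l with
  | nil => intro t n h; exact h
  | cons c l ih => intro t n h; exact goodSt_bind (goodSt_leafK h15 hiv hR _ _ _ _ h) (fun t n h => ih t n h)

lemma goodSt_progK (h15 : ∀ ω, act 31 ω = ω) (hiv : ∀ a, a < 32 → ∀ ω, act (iv a) (act a ω) = ω)
    {R : Rl} (hR : GoodRl act R) (l : List (List ℕ)) : ∀ (t : Tr) (n : ℕ),
    GoodSt act ω₀ (St.ok t n) → GoodSt act ω₀ (progK R l t n) := by
  induction l with
  | nil => intro t n h; exact h
  | cons c l ih => intro t n h; exact goodSt_bind (goodSt_listK h15 hiv hR _ _ _ h) (fun t n h => ih t n h)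

/-! ## Expansion of the relators -/

lemma wdK_eq (f : ℕ) : ∀ (code : ℕ) (c : List ℕ → St), wdK f code c = c (wd f code) := by
  induction f with
  | zero => intro code c; rfl
  | succ f ih =>
    intro code c
    rcases code with _ | code
    · rfl
    · exact ih _ _

lemma wd_lt (f : ℕ) : ∀ code, ∀ a ∈ wd f code, a < 32 := by
  induction f with
  | zero => intro code a ha; simp [wd] at ha
  | succ f ih =>
    intro code a ha
    rcases code with _ | code
    · simp [wd] at ha
    · simp only [wd, List.mem_cons] at ha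
      rcases ha with rfl | ha
      · exact Nat.mod_lt _ (by norm_num)
      · exact ih _ a ha

lemma appK_eq (u : List ℕ) : ∀ (L : List ℕ) (c : List ℕ → St), appK u L c = c (u ++ L) := by
  induction u with
  | nil => intro L c; rfl
  | cons a u ih => intro L c; exact ih _ _

lemma powK_eq (u : List ℕ) (m : ℕ) : ∀ c : List ℕ → St, powK u m c = c (powL m u) := by
  induction m with
  | zero => intro c; rfl
  | succ m ih =>
    intro c
    change powK u m (fun L => appK u L c) = _
    rw [ih, appK_eq]; rfl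

lemma lenN_eq (L : List ℕ) : lenN L = L.length := by
  induction L with
  | nil => rfl
  | cons a L ih => change lenN L + 1 = _; rw [ih]; rfl

lemma powL_lt {u : List ℕ} (hu : ∀ a ∈ u, a < 32) (m : ℕ) : ∀ a ∈ powL m u, a < 32 := by
  induction m with
  | zero => intro a ha; simp [powL] at ha
  | succ m ih =>
    intro a ha
    rw [powL, List.mem_append] at ha
    rcases ha with ha | ha
    · exact hu a ha
    · exact ih a ha

lemma pth_inj (hiv : ∀ a, a < 32 → ∀ ω, act (iv a) (act a ω) = ω) {L : List ℕ} (hL : ∀ a ∈ L, a < 32) :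
    Function.Injective (pth act L) := by
  induction L with
  | nil => intro ω ω' h; exact h
  | cons a L ih =>
    intro ω ω' h
    have h1 : pth act L (act a ω) = pth act L (act a ω') := h
    have h2 := ih (fun b hb => hL b (by simp [hb])) h1
    rw [← hiv a (hL a (by simp)) ω, h2, hiv a (hL a (by simp)) ω']

lemma goodRel_of (hiv : ∀ a, a < 32 → ∀ ω, act (iv a) (act a ω) = ω) {w : List ℕ}
    (hw : ∀ a ∈ w, a < 32) (hact : ∀ ω, pth act w ω = ω) {m : ℕ} (hm : w.length = m + 1) :
    GoodRel act m (w ++ w) := by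
  refine ⟨by intro a ha; rw [List.mem_append] at ha; rcases ha with h | h <;> exact hw a h, ?_⟩
  intro k hk ω
  rw [List.length_append, hm] at hk
  have e : List.take (m + 1) (List.drop k (w ++ w)) = List.drop k w ++ List.take k w := by
    rw [List.drop_append_of_le_length (by omega), List.take_append, List.length_drop, hm]
    congr 1
    · rw [List.take_of_length_le]; rw [List.length_drop]; omega
    · congr 1; omega
  rw [e, pth_append]
  apply pth_inj hiv (L := List.drop k w) (fun a ha => hw a (List.mem_of_mem_drop ha))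
  rw [← pth_append, List.take_append_drop]
  exact hact _

lemma goodSt_relsK (hiv : ∀ a, a < 32 → ∀ ω, act (iv a) (act a ω) = ω) (l : List (ℕ × ℕ))
    (hl : ∀ p ∈ l, ∀ ω, pth act (powL p.2 (wd 64 p.1)) ω = ω) :
    ∀ c : Rl → St, (∀ R, GoodRl act R → GoodSt act ω₀ (c R)) → GoodSt act ω₀ (relsK l c) := by
  induction l with
  | nil => intro c hc; exact hc _ trivial
  | cons p l ih =>
    intro c hc
    obtain ⟨code, m⟩ := p
    change GoodSt act ω₀ (wdK 64 code (fun u => powK u m (fun w => appK w w (fun L =>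
        Nat.rec (motive := fun _ => St) St.bad (fun m' _ => relsK l (fun R => c (Rl.cons m' L R)))
          (lenN w)))))
    rw [wdK_eq, powK_eq, appK_eq, lenN_eq]
    apply goodSt_natRec
    · intro _; trivial
    intro m' hm'
    refine ih (fun p hp => hl p (by simp [hp])) _ ?_
    intro R hR
    exact hc _ ⟨goodRel_of hiv (powL_lt (wd_lt 64 code) m) (hl (code, m) (by simp)) hm', hR⟩

/-! ## The theorem -/

lemma goodSt_subsK (l : List ℕ) (hl : ∀ a ∈ l, a < 32 ∧ act a ω₀ = ω₀) : ∀ (t : Tr) (c : Tr → St),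
    (∀ f : ℕ → Ω, f 0 = ω₀ → Good act f t 1 → (∀ t', Good act f t' 1 → GoodSt act ω₀ (c t')) →
      GoodSt act ω₀ (subsK l t c)) := by
  induction l with
  | nil => intro t c f _ h hc; exact hc t h
  | cons a l ih =>
    intro t c f hf h hc
    obtain ⟨ha, hfix⟩ := hl a (by simp)
    change GoodSt act ω₀ (setK t a 1 (fun t1 => subsK l t1 c))
    apply goodSt_setK (by norm_num)
    intro t' ht'
    refine ih (fun b hb => hl b (by simp [hb])) t' c f hf ?_ hc
    refine h.set (i := 0) (a := a) (j := 0) ha (by norm_num) (by norm_num) (by rw [hf]; exact hfix) ?_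
    simpa using ht'

lemma isOk_finK {s : St} (h : isOk (finK s) = true) (h15 : ∀ ω, act 31 ω = ω)
    (hs : GoodSt act ω₀ s) : act 5 ω₀ = ω₀ := by
  rcases s with _ | ⟨t, n⟩
  · exact absurd h (by simp [finK, isOk])
  obtain ⟨f, hf0, hg⟩ := hs
  have h1 : isOk (Nat.rec (motive := fun _ => St) St.bad (fun j _ =>
      repK t 64 j (fun e => Nat.rec (motive := fun _ => St) (St.ok t n) (fun _ _ => St.bad) e))
      (get t 5)) = true := h
  rcases hj : get t 5 with _ | j
  · rw [hj] at h1; exact absurd h1 (by simp [isOk])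
  rw [hj] at h1
  have h2 : isOk (repK t 64 j (fun e => Nat.rec (motive := fun _ => St) (St.ok t n) (fun _ _ => St.bad) e))
      = true := h1
  have h3 := hg.get (i := 0) (a := 5) (j := j) (by norm_num) (by simpa using hj)
  -- follow the chain
  have key : ∀ (m i : ℕ), i < n →
      isOk (repK t m i (fun e => Nat.rec (motive := fun _ => St) (St.ok t n) (fun _ _ => St.bad) e)) = true →
      f i = f 0 := by
    intro m
    induction m with
    | zero => intro i _ h; exact absurd h (by simp [repK, isOk])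
    | succ m ih =>
      intro i hi h
      have h4 : isOk (Nat.rec (motive := fun _ => St)
        (Nat.rec (motive := fun _ => St) (St.ok t n) (fun _ _ => St.bad) i)
        (fun j _ => repK t m j (fun e => Nat.rec (motive := fun _ => St) (St.ok t n) (fun _ _ => St.bad) e))
        (get t (32 * i + 31))) = true := h
      rcases hk : get t (32 * i + 31) with _ | k
      · rw [hk] at h4
        rcases i with _ | i
        · rfl
        · exact absurd h4 (by simp [isOk])
      · rw [hk] at h4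
        have h5 := hg.get (i := i) (a := 31) (j := k) (by norm_num) hk
        rw [h15] at h5
        rw [h5.2.2]
        exact ih k h5.2.1 h4
  have h4 := key 64 j h3.2.1 h2
  rw [h4, hf0] at h3
  exact h3.2.2

/-- soundness of the checker -/
theorem check_sound (h15 : ∀ ω, act 31 ω = ω) (hiv : ∀ a, a < 32 → ∀ ω, act (iv a) (act a ω) = ω)
    {d : ℕ} {subs : List ℕ} {specs : List (ℕ × ℕ)} {prog : List (List ℕ)}
    (hsubs : ∀ a ∈ subs, a < 32 ∧ act a ω₀ = ω₀)
    (hspecs : ∀ p ∈ specs, ∀ ω, pth act (powL p.2 (wd 64 p.1)) ω = ω)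
    (hc : check d subs specs prog = true) : act 5 ω₀ = ω₀ := by
  refine isOk_finK hc h15 ?_
  obtain ⟨t, ht, h0⟩ := fullK_spec d (fun t0 => subsK subs t0 (fun t1 =>
    relsK specs (fun R => progK R prog t1 1)))
  change GoodSt act ω₀ (fullK d (fun t0 => subsK subs t0 (fun t1 =>
    relsK specs (fun R => progK R prog t1 1))))
  rw [ht]
  refine goodSt_subsK subs hsubs t _ (fun _ => ω₀) rfl ⟨by norm_num, ?_⟩ ?_
  · intro k j hk; rw [h0] at hk; exact absurd hk (by omega)
  · intro t' ht'
    refine goodSt_relsK hiv specs hspecs _ ?_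
    intro R hR
    exact goodSt_progK h15 hiv hR prog t' 1 ⟨_, rfl, ht'⟩

end Sound

end TCW
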